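import Pool.Agent.R497.CA.Fin

set_option autoImplicit false

/-!
# MP_8a6a08_lc, Q1 (negative answer)

There are a one-dimensional cellular automaton `A` and a Turing domain `D` for `A` such that `A` is
computation-universal with respect to `D` (every partial recursive function is computed even by a
finite configuration), but no configuration at all is a universal computer with respect to `D`.

All notions (`Automaton`, `TuringDomain`, `Computes`, `ComputationUniversal`,
`UniversalComputer`, ...) are those of the problem file; they are defined in
`Pool/Agent/R497/CA/Defs.lean`.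
-/

namespace Pool.Agent.Results.MP_8a6a08_lc.NoUniversalComputer

open Pool.Agent.R497.CA

theorem result : ∃ (A : Automaton 1) (D : TuringDomain A),
    ComputationUniversal D ∧
    (∀ ψ : ℕ →. ℕ, Nat.Partrec ψ → ∃ c : Conf A, (Supp c).Finite ∧ Computes D c ψ) ∧
    ∀ c : Conf A, ¬ UniversalComputer D c := by
  obtain ⟨A, D, h1, h2⟩ := main
  refine ⟨A, D, fun ψ hψ => ?_, h1, h2⟩
  obtain ⟨c, _, hc⟩ := h1 ψ hψ
  exact ⟨c, hc⟩

end Pool.Agent.Results.MP_8a6a08_lc.NoUniversalComputer
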